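import Mathlib
import Pool.Agent.Helper63.RC.Defs

set_option autoImplicit false

namespace Pool.Agent.Helper63.RC

open Matrix Module

/-- coefficient vector -/
noncomputable def rc3E (G : Type) [Fintype G] : MonoidAlgebra ℂ G ≃ₗ[ℂ] (G → ℂ) :=
  (MonoidAlgebra.coeffLinearEquiv ℂ).trans (Finsupp.linearEquivFunOnFinite ℂ ℂ G)

theorem rc3E_apply {G : Type} [Fintype G] (x : MonoidAlgebra ℂ G) (g : G) :
    rc3E G x g = x.coeff g := rfl

theorem rc3E_mul {G : Type} [Group G] [Fintype G] (x y : MonoidAlgebra ℂ G) :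
    rc3E G (x * y) = gcirc (rc3E G x) *ᵥ (rc3E G y) := by
  classical
  ext g
  rw [rc3E_apply, MonoidAlgebra.coeff_mul_apply_right]
  rw [Finsupp.sum_fintype _ _ (by simp)]
  rfl

theorem rc3_cx_of_uniform {G : Type} [Group G] [Fintype G] [DecidableEq G]
    (S : Matrix G G ℂ) {r : ℕ} (P : Matrix G (Fin r) ℂ) (Q : Matrix (Fin r) G ℂ)
    (P' : G → Matrix G (Fin r) ℂ) (Q' : G → Matrix (Fin r) G ℂ) (S' : G → Matrix G G ℂ)
    (hS : ∀ a g h, S g h = 0 → S' a g h = 0)
    (h : ∀ a, gcirc (Pi.single a (1 : ℂ)) = P' a * Q + P * Q' a + S' a) :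
    ∃ W U : Submodule ℂ (MonoidAlgebra ℂ G), finrank ℂ U ≤ r ∧ Fintype.card G ≤ finrank ℂ W + r ∧
      Cx W U (Set.ncard {p : G × G | S p.1 p.2 ≠ 0}) := by
  classical
  let e := rc3E G
  refine ⟨LinearMap.ker (Q.mulVecLin.comp e.toLinearMap),
    (LinearMap.range P.mulVecLin).map e.symm.toLinearMap, ?_, ?_, ?_⟩
  · refine (Submodule.finrank_map_le _ _).trans ?_
    refine (LinearMap.finrank_range_le _).trans ?_
    simp
  · have h1 := LinearMap.finrank_range_add_finrank_ker (Q.mulVecLin.comp e.toLinearMap)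
    have h2 : finrank ℂ (LinearMap.range (Q.mulVecLin.comp e.toLinearMap)) ≤ r := by
      refine (Submodule.finrank_le _).trans ?_
      simp
    have h3 : finrank ℂ (MonoidAlgebra ℂ G) = Fintype.card G := by
      rw [e.finrank_eq]; simp
    omega
  · let T : Finset (G × G) := Finset.univ.filter fun p => S p.1 p.2 ≠ 0
    have hT : T.card = Set.ncard {p : G × G | S p.1 p.2 ≠ 0} := by
      rw [Set.ncard_eq_toFinset_card']
      congr 1
      ext p; simp [T]
    let eq := T.equivFinOfCardEq hT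
    refine ⟨fun k => ∑ a, S' a (eq.symm k).1.1 (eq.symm k).1.2 •
        ((LinearMap.proj a : (G → ℂ) →ₗ[ℂ] ℂ).comp e.toLinearMap),
      fun k => (LinearMap.proj (eq.symm k).1.2 : (G → ℂ) →ₗ[ℂ] ℂ).comp e.toLinearMap,
      fun k => e.symm (Pi.single (eq.symm k).1.1 1), ?_⟩
    intro f x hx
    have hQ : Q *ᵥ (e x) = 0 := hx
    refine ⟨P *ᵥ (∑ a, e f a • (Q' a *ᵥ e x)), ⟨_, rfl⟩, ?_⟩
    change e.symm _ = _
    rw [LinearEquiv.symm_apply_eq, map_sub, map_sum]
    have h1 : e (f * x) = gcirc (e f) *ᵥ e x := rc3E_mul f x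
    rw [h1]
    have h2 : gcirc (e f) = ∑ a, e f a • gcirc (Pi.single a (1 : ℂ)) := by
      ext g k
      simp [gcirc, Matrix.sum_apply, Pi.single_apply]
    have h3 : gcirc (e f) *ᵥ e x = ∑ a, e f a • (P *ᵥ (Q' a *ᵥ e x) + S' a *ᵥ e x) := by
      rw [h2, Matrix.sum_mulVec]
      refine Finset.sum_congr rfl fun a _ => ?_
      rw [h a, Matrix.smul_mulVec, Matrix.add_mulVec, Matrix.add_mulVec, ← Matrix.mulVec_mulVec,
        ← Matrix.mulVec_mulVec, hQ, Matrix.mulVec_zero, zero_add]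
    rw [h3]
    have h4 : ∑ a, e f a • (P *ᵥ (Q' a *ᵥ e x) + S' a *ᵥ e x) =
        P *ᵥ (∑ a, e f a • (Q' a *ᵥ e x)) + ∑ a, e f a • (S' a *ᵥ e x) := by
      rw [Matrix.mulVec_sum, ← Finset.sum_add_distrib]
      refine Finset.sum_congr rfl fun a _ => ?_
      rw [smul_add, Matrix.mulVec_smul]
    rw [h4]
    have h5 : ∑ a, e f a • (S' a *ᵥ e x) = ∑ k : Fin (Set.ncard {p : G × G | S p.1 p.2 ≠ 0}),
        e (((∑ a, S' a (eq.symm k).1.1 (eq.symm k).1.2 •
        ((LinearMap.proj a : (G → ℂ) →ₗ[ℂ] ℂ).comp e.toLinearMap)) f *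
        ((LinearMap.proj (eq.symm k).1.2 : (G → ℂ) →ₗ[ℂ] ℂ).comp e.toLinearMap) x) •
        e.symm (Pi.single (eq.symm k).1.1 1)) := by
      rw [Equiv.sum_comp eq.symm (fun p : T => e (((∑ a, S' a p.1.1 p.1.2 •
        ((LinearMap.proj a : (G → ℂ) →ₗ[ℂ] ℂ).comp e.toLinearMap)) f *
        ((LinearMap.proj p.1.2 : (G → ℂ) →ₗ[ℂ] ℂ).comp e.toLinearMap) x) •
        e.symm (Pi.single p.1.1 1)))]
      rw [Finset.sum_coe_sort T (fun p : G × G => e (((∑ a, S' a p.1 p.2 •
        ((LinearMap.proj a : (G → ℂ) →ₗ[ℂ] ℂ).comp e.toLinearMap)) f *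
        ((LinearMap.proj p.2 : (G → ℂ) →ₗ[ℂ] ℂ).comp e.toLinearMap) x) •
        e.symm (Pi.single p.1 1)))]
      rw [Finset.sum_subset (Finset.subset_univ T)]
      · rw [Fintype.sum_prod_type]
        ext g
        simp only [map_smul, LinearEquiv.apply_symm_apply, Finset.sum_apply, Pi.smul_apply,
          smul_eq_mul, Pi.single_apply, mul_ite, mul_one, mul_zero]
        symm
        rw [Finset.sum_eq_single g]
        · simp only [if_true, Matrix.mulVec, dotProduct, LinearMap.sum_apply, LinearMap.smul_apply,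
            LinearMap.comp_apply, LinearMap.proj_apply, LinearEquiv.coe_coe, smul_eq_mul]
          simp_rw [Finset.mul_sum, Finset.sum_mul]
          rw [Finset.sum_comm]
          refine Finset.sum_congr rfl fun a _ => Finset.sum_congr rfl fun b _ => ?_
          ring
        · intro b _ hb
          simp [hb.symm]
        · simp
      · intro p _ hp
        have hp0 : S p.1 p.2 = 0 := by
          by_contra hne
          exact hp (by simp [T, hne])
        have : ∀ a, S' a p.1 p.2 = 0 := fun a => hS a _ _ hp0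
        simp [this]
    rw [h5]
    simp only [add_sub_cancel_right]

end Pool.Agent.Helper63.RC
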