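import Mathlib
import Pool.Agent.Helper63.RC.Defs

set_option autoImplicit false

namespace Pool.Agent.Helper63.RC

open Algebra

open scoped IntermediateField.algebraAdjoinAdjoin in
theorem rc1_formallyEtale {ι : Type*} {v : ι → ℂ} (hb : IsTranscendenceBasis ℚ v) :
    Algebra.FormallyEtale (Algebra.adjoin ℚ (Set.range v)) ℂ := by
  have h1 : Algebra.FormallyEtale (adjoin ℚ (Set.range v))
      (IntermediateField.adjoin ℚ (Set.range v)) :=
    .of_isLocalization (nonZeroDivisors _)
  have halg : Algebra.IsAlgebraic (adjoin ℚ (Set.range v)) ℂ := hb.isAlgebraic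
  have halg2 : Algebra.IsAlgebraic (IntermediateField.adjoin ℚ (Set.range v)) ℂ := by
    constructor
    intro x
    have hx := halg.isAlgebraic x
    exact hx.extendScalars (FaithfulSMul.algebraMap_injective _ _)
  have h2 : Algebra.FormallyEtale (IntermediateField.adjoin ℚ (Set.range v)) ℂ :=
    Algebra.FormallyEtale.of_isSeparable _ ℂ
  exact .comp _ (IntermediateField.adjoin ℚ (Set.range v)) _

/-- the partial derivative on the subalgebra generated by an algebraically independent family -/
noncomputable def rc1Der {ι : Type*} {v : ι → ℂ} (hb : AlgebraicIndependent ℚ v) (i : ι) :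
    Derivation ℚ (Algebra.adjoin ℚ (Set.range v)) ℂ where
  toFun x := MvPolynomial.aeval v (MvPolynomial.pderiv i (hb.aevalEquiv.symm x))
  map_add' x y := by simp
  map_smul' c x := by simp
  map_one_eq_zero' := by simp
  leibniz' x y := by
    have h : ∀ z : Algebra.adjoin ℚ (Set.range v),
        MvPolynomial.aeval v (hb.aevalEquiv.symm z) = (z : ℂ) := by
      intro z
      rw [← hb.algebraMap_aevalEquiv, hb.aevalEquiv.apply_symm_apply]
      rfl
    simp only [LinearMap.coe_mk, AddHom.coe_mk, map_mul, Derivation.leibniz, smul_eq_mul,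
      map_add, h, Algebra.smul_def]
    rfl

theorem rc1_exists_derivation {κ : Type*} [DecidableEq κ] {f : κ → ℂ}
    (hf : AlgebraicIndependent ℚ f) (a : κ) :
    ∃ D : Derivation ℚ ℂ ℂ, ∀ b, D (f b) = if a = b then 1 else 0 := by
  classical
  have hs : AlgebraicIndepOn ℚ id (Set.range f) :=
    (algebraicIndependent_subtype_range hf.injective).2 hf
  obtain ⟨t, hst, ht⟩ := exists_isTranscendenceBasis_superset hs
  set v : t → ℂ := Subtype.val with hv
  have hb : AlgebraicIndependent ℚ v := ht.1
  have hE : Algebra.FormallyEtale (Algebra.adjoin ℚ (Set.range v)) ℂ := rc1_formallyEtale ht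
  set i : κ → t := fun b => ⟨f b, hst ⟨b, rfl⟩⟩ with hi
  let d := rc1Der hb (i a)
  let e := KaehlerDifferential.tensorKaehlerEquivOfFormallyEtale ℚ
    (Algebra.adjoin ℚ (Set.range v)) ℂ
  let g : _ →ₗ[ℂ] ℂ := (LinearMap.liftBaseChange ℂ d.liftKaehlerDifferential).comp
    e.symm.toLinearMap
  refine ⟨g.compDer (KaehlerDifferential.D ℚ ℂ), fun b => ?_⟩
  have hmem : v (i b) ∈ Algebra.adjoin ℚ (Set.range v) := Algebra.subset_adjoin ⟨i b, rfl⟩
  have h1 : f b = algebraMap (Algebra.adjoin ℚ (Set.range v)) ℂ ⟨v (i b), hmem⟩ := rfl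
  have h2 : (g.compDer (KaehlerDifferential.D ℚ ℂ)) (f b) = d ⟨v (i b), hmem⟩ := by
    rw [h1]
    change LinearMap.liftBaseChange ℂ d.liftKaehlerDifferential
      (e.symm (KaehlerDifferential.D ℚ ℂ _)) = _
    rw [KaehlerDifferential.tensorKaehlerEquivOfFormallyEtale_symm_D_algebraMap]
    simp
  rw [h2]
  change MvPolynomial.aeval v (MvPolynomial.pderiv (i a) (hb.aevalEquiv.symm _)) = _
  have h3 : hb.aevalEquiv.symm ⟨v (i b), hmem⟩ = MvPolynomial.X (i b) := by
    rw [AlgEquiv.symm_apply_eq]
    apply Subtype.ext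
    simp
  rw [h3, MvPolynomial.pderiv_X]
  by_cases hab : a = b
  · subst hab
    simp
  · have hne : i b ≠ i a := by
      intro h
      exact hab (hf.injective (congrArg Subtype.val h)).symm
    rw [Pi.single_eq_of_ne hne]
    simp [hab]

end Pool.Agent.Helper63.RC
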