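import Mathlib
import Pool.Agent.Helper63.RC.Defs

set_option autoImplicit false

namespace Pool.Agent.Helper63.RC

open Matrix Module

theorem rc5_aux {B P : Type*} [Ring B] [Algebra ℂ B] [FiniteDimensional ℂ B]
    [AddCommGroup P] [Module ℂ P] [FiniteDimensional ℂ P] (ρ : B →ₐ[ℂ] Module.End ℂ P)
    (U : Submodule ℂ P) (c : Bˣ)
    (hc : ∀ β : B, ∀ x ∈ U, x ∈ U.map (ρ (c : B)) → ρ β x ∈ U ⊔ U.map (ρ (c : B))) :
    ∃ J : Submodule ℂ P, (∀ β : B, ∀ x ∈ J, ρ β x ∈ J) ∧ U ⊓ U.map (ρ (c : B)) ≤ J ∧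
      finrank ℂ J ≤ 2 * finrank ℂ U := by
  refine ⟨Submodule.span ℂ {y | ∃ β : B, ∃ x ∈ U ⊓ U.map (ρ (c : B)), y = ρ β x}, ?_, ?_, ?_⟩
  · intro β x hx
    induction hx using Submodule.span_induction with
    | mem x h =>
      obtain ⟨b, z, hz, rfl⟩ := h
      apply Submodule.subset_span
      refine ⟨β * b, z, hz, ?_⟩
      rw [map_mul]; rfl
    | zero => rw [map_zero]; exact Submodule.zero_mem _
    | add x y _ _ hx hy => rw [map_add]; exact Submodule.add_mem _ hx hy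
    | smul a x _ hx => rw [map_smul]; exact Submodule.smul_mem _ _ hx
  · intro x hx
    apply Submodule.subset_span
    refine ⟨1, x, hx, ?_⟩
    rw [map_one]; rfl
  · have h1 : Submodule.span ℂ {y | ∃ β : B, ∃ x ∈ U ⊓ U.map (ρ (c : B)), y = ρ β x} ≤
        U ⊔ U.map (ρ (c : B)) := by
      rw [Submodule.span_le]
      rintro _ ⟨β, x, hx, rfl⟩
      exact hc β x hx.1 hx.2
    have h2 := Submodule.finrank_mono h1
    have h3 := Submodule.finrank_add_le_finrank_add_finrank U (U.map (ρ (c : B)))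
    have h4 := Submodule.finrank_map_le (ρ (c : B)) U
    omega

theorem rc5_inf_aux {A : Type*} [Ring A] [Algebra ℂ A] [FiniteDimensional ℂ A]
    (U : Submodule ℂ A) (c : Aˣ)
    (hc : ∀ β : A, ∀ x ∈ U, x ∈ U.map (Algebra.lmul ℂ A (c : A)) →
      Algebra.lmul ℂ A β x ∈ U ⊔ U.map (Algebra.lmul ℂ A (c : A))) :
    ∃ (J : Submodule ℂ A), LeftClosed J ∧
      U ⊓ U.map (LinearMap.mulLeft ℂ (c : A)) ≤ J ∧ finrank ℂ J ≤ 2 * finrank ℂ U := by
  obtain ⟨J, h1, h2, h3⟩ := rc5_aux (Algebra.lmul ℂ A) U c hc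
  exact ⟨J, h1, h2, h3⟩

/-- the representation of the opposite algebra on the dual space -/
noncomputable def rc5Rho (A : Type*) [Ring A] [Algebra ℂ A] :
    Aᵐᵒᵖ →ₐ[ℂ] Module.End ℂ (Module.Dual ℂ A) where
  toFun a := (LinearMap.mulLeft ℂ a.unop).dualMap
  map_one' := by
    ext φ x; simp
  map_mul' a b := by
    ext φ x
    simp
  map_zero' := by
    ext φ x; simp
  map_add' a b := by
    ext φ x; simp [add_mul]
  commutes' r := by
    ext φ x
    simp [Algebra.algebraMap_eq_smul_one]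

theorem rc5Rho_apply {A : Type*} [Ring A] [Algebra ℂ A] (a : Aᵐᵒᵖ) (φ : Module.Dual ℂ A) (x : A) :
    rc5Rho A a φ x = φ (a.unop * x) := rfl

theorem rc5_sup_aux {A : Type*} [Ring A] [Algebra ℂ A] [FiniteDimensional ℂ A]
    (W : Submodule ℂ A) {r : ℕ} (hW : finrank ℂ A ≤ finrank ℂ W + r) (c : (Aᵐᵒᵖ)ˣ)
    (hc : ∀ β : Aᵐᵒᵖ, ∀ x ∈ W.dualAnnihilator, x ∈ W.dualAnnihilator.map (rc5Rho A (c : Aᵐᵒᵖ)) →
      rc5Rho A β x ∈ W.dualAnnihilator ⊔ W.dualAnnihilator.map (rc5Rho A (c : Aᵐᵒᵖ))) :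
    ∃ (b : Aˣ) (I : Submodule ℂ A), LeftClosed I ∧
      I ≤ W ⊔ W.map (LinearMap.mulLeft ℂ (b : A)) ∧ finrank ℂ A ≤ finrank ℂ I + 2 * r := by
  obtain ⟨J, h1, h2, h3⟩ := rc5_aux (rc5Rho A) W.dualAnnihilator c hc
  let b : Aˣ := ⟨(c⁻¹ : (Aᵐᵒᵖ)ˣ).1.unop, c.1.unop, by
    rw [← MulOpposite.unop_mul]; simp, by
    rw [← MulOpposite.unop_mul]; simp⟩
  have hb : c.1.unop * (b : A) = 1 := b.inv_mul
  have hb' : (b : A) * c.1.unop = 1 := b.mul_inv
  refine ⟨b, J.dualCoannihilator, ?_, ?_, ?_⟩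
  · intro a x hx
    rw [Submodule.mem_dualCoannihilator] at hx ⊢
    intro φ hφ
    have := hx _ (h1 (MulOpposite.op a) φ hφ)
    rwa [rc5Rho_apply] at this
  · have h4 : (W ⊔ W.map (LinearMap.mulLeft ℂ (b : A))).dualAnnihilator ≤ J := by
      refine le_trans ?_ h2
      refine le_inf (Submodule.dualAnnihilator_anti le_sup_left) ?_
      intro φ hφ
      rw [Submodule.mem_dualAnnihilator] at hφ
      refine ⟨φ.comp (LinearMap.mulLeft ℂ (b : A)), ?_, ?_⟩
      · change _ ∈ W.dualAnnihilator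
        rw [Submodule.mem_dualAnnihilator]
        intro w hw
        exact hφ _ (Submodule.mem_sup_right ⟨w, hw, rfl⟩)
      · apply LinearMap.ext
        intro x
        change rc5Rho A (c : Aᵐᵒᵖ) _ x = _
        rw [rc5Rho_apply]
        simp only [LinearMap.comp_apply, LinearMap.mulLeft_apply]
        rw [← mul_assoc, hb', one_mul]
    have h5 := Submodule.dualCoannihilator_anti h4
    rwa [Subspace.dualAnnihilator_dualCoannihilator_eq] at h5
  · have h6 := Subspace.finrank_add_finrank_dualCoannihilator_eq J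
    have h7 := Subspace.finrank_add_finrank_dualAnnihilator_eq W
    omega

end Pool.Agent.Helper63.RC
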