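import Mathlib
import Pool.Agent.Helper51.RC.IdealsAux
import Pool.Agent.Helper31.RC.Generic

set_option autoImplicit false

namespace Pool.Agent.Helper63.RC

open Matrix Module

theorem rc5_inf {A : Type*} [Ring A] [Algebra ℂ A] [FiniteDimensional ℂ A] (U : Submodule ℂ A) :
    ∃ (c : Aˣ) (J : Submodule ℂ A), LeftClosed J ∧
      U ⊓ U.map (LinearMap.mulLeft ℂ (c : A)) ≤ J ∧ finrank ℂ J ≤ 2 * finrank ℂ U := by
  obtain ⟨c, hc⟩ := rc4_generic_unit (Algebra.lmul ℂ A) U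
  exact ⟨c, rc5_inf_aux U c hc⟩

theorem rc5_sup {A : Type*} [Ring A] [Algebra ℂ A] [FiniteDimensional ℂ A] (W : Submodule ℂ A)
    {r : ℕ} (hW : finrank ℂ A ≤ finrank ℂ W + r) :
    ∃ (b : Aˣ) (I : Submodule ℂ A), LeftClosed I ∧
      I ≤ W ⊔ W.map (LinearMap.mulLeft ℂ (b : A)) ∧ finrank ℂ A ≤ finrank ℂ I + 2 * r := by
  have : FiniteDimensional ℂ Aᵐᵒᵖ :=
    Module.Finite.equiv (MulOpposite.opLinearEquiv ℂ : A ≃ₗ[ℂ] Aᵐᵒᵖ)
  obtain ⟨c, hc⟩ := rc4_generic_unit (rc5Rho A) W.dualAnnihilator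
  exact rc5_sup_aux W hW c hc

end Pool.Agent.Helper63.RC
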