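import Mathlib
import Pool.Agent.Helper51.RC.Deriv

set_option autoImplicit false

namespace Pool.Agent.Helper63.RC

open Matrix Module

theorem rc2_rank_factor {m n : Type} [Fintype m] [Fintype n] (M : Matrix m n ℂ) {r : ℕ}
    (h : M.rank ≤ r) : ∃ (P : Matrix m (Fin r) ℂ) (Q : Matrix (Fin r) n ℂ), M = P * Q := by
  classical
  let R : Submodule ℂ (m → ℂ) := LinearMap.range M.mulVecLin
  have hR : finrank ℂ R ≤ r := h
  let b := Module.finBasis ℂ R
  let e : Fin r → (m → ℂ) := fun k => if h : (k : ℕ) < finrank ℂ R then (b ⟨k, h⟩ : m → ℂ) else 0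
  have hspan : R ≤ Submodule.span ℂ (Set.range e) := by
    intro x hx
    have h1 := b.sum_repr ⟨x, hx⟩
    have h2 : x = ∑ i, b.repr ⟨x, hx⟩ i • (b i : m → ℂ) := by
      have h5 := congrArg (Submodule.subtype R) h1
      rw [map_sum] at h5
      exact h5.symm
    rw [h2]
    refine Submodule.sum_mem _ fun i _ => Submodule.smul_mem _ _ ?_
    apply Submodule.subset_span
    refine ⟨⟨i, lt_of_lt_of_le i.2 hR⟩, ?_⟩
    simp [e]
  have hcol : ∀ j : n, ∃ c : Fin r → ℂ, ∑ k, c k • e k = M *ᵥ (Pi.single j 1) := by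
    intro j
    exact (Submodule.mem_span_range_iff_exists_fun ℂ).1 (hspan ⟨Pi.single j 1, rfl⟩)
  choose c hc using hcol
  refine ⟨Matrix.of fun i k => e k i, Matrix.of fun k j => c j k, ?_⟩
  ext i j
  have h3 := congrFun (hc j) i
  rw [Matrix.mulVec_single_one] at h3
  simp only [Matrix.mul_apply, Matrix.of_apply]
  simp only [Finset.sum_apply, Pi.smul_apply, smul_eq_mul, Matrix.col_apply] at h3
  rw [← h3]
  exact Finset.sum_congr rfl fun k _ => mul_comm _ _

theorem rc2_uniformize {G : Type} [Group G] [Fintype G] [DecidableEq G] {f : G → ℂ}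
    (hf : AlgebraicIndependent ℚ f) (S : Matrix G G ℂ) {r : ℕ} (hr : (gcirc f - S).rank ≤ r) :
    ∃ (P : Matrix G (Fin r) ℂ) (Q : Matrix (Fin r) G ℂ) (P' : G → Matrix G (Fin r) ℂ)
      (Q' : G → Matrix (Fin r) G ℂ) (S' : G → Matrix G G ℂ),
      (∀ a g h, S g h = 0 → S' a g h = 0) ∧
      ∀ a, gcirc (Pi.single a (1 : ℂ)) = P' a * Q + P * Q' a + S' a := by
  obtain ⟨P, Q, hPQ⟩ := rc2_rank_factor _ hr
  choose D hD using rc1_exists_derivation hf
  refine ⟨P, Q, fun a => P.map (D a), fun a => Q.map (D a), fun a => S.map (D a), ?_, ?_⟩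
  · intro a g h hS
    simp [hS]
  · intro a
    ext g h
    have h1 := congrFun (congrFun hPQ g) h
    simp only [Matrix.sub_apply, Matrix.mul_apply] at h1
    have h2 : f (g * h⁻¹) = ∑ j, P g j * Q j h + S g h := by
      rw [← h1]; simp [gcirc]
    have h3 := congrArg (D a) h2
    rw [hD, map_add, map_sum] at h3
    simp only [Derivation.leibniz, smul_eq_mul] at h3
    simp only [Matrix.add_apply, Matrix.mul_apply, Matrix.map_apply, gcirc, Matrix.of_apply]
    rw [Pi.single_apply]
    have h4 : (if g * h⁻¹ = a then (1 : ℂ) else 0) = if a = g * h⁻¹ then 1 else 0 := by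
      simp [eq_comm]
    rw [h4, h3, Finset.sum_add_distrib]
    rw [add_comm (∑ x, P g x * (D a) (Q x h))]
    congr 2
    exact Finset.sum_congr rfl fun k _ => mul_comm _ _

end Pool.Agent.Helper63.RC
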